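import Pool.Agent.H49.G.R_seed8.Y957.VK.Stm2

/-!
# One more dilated factor
-/

set_option autoImplicit false

namespace Pool.Agent.Y220.VK

open Finset MeasureTheory Filter Topology
open scoped ENNReal
open Pool.Agent.H376R2.MR (er)
open Pool.Agent.Y957.AD (PolyVar)
open Pool.Agent.Y957.VK

theorem er_norm (τ x : ℝ) : ‖er τ x‖ = 1 := by
  unfold er
  exact Complex.norm_exp_ofReal_mul_I _

theorem er_mul (τ ξ c x : ℝ) : er τ x * er ξ (c * x) = er (τ + c * ξ) x := by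
  unfold er
  rw [← Complex.exp_add]
  congr 1
  push_cast
  ring

theorem Bw_meas {A : ℝ → ℂ} (hA : Measurable A) (b L : ℝ) : Measurable (Bw A b L) := by
  show Measurable fun y => if y ∈ Set.Icc 0 L then A (Real.exp (b + y)) else 0
  exact Measurable.ite measurableSet_Icc
    (hA.comp (Real.measurable_exp.comp (measurable_const.add measurable_id))) measurable_const

theorem log_pow_le (K : ℕ) {x : ℝ} (hx : 1 ≤ x) : Real.log x ^ K ≤ K.factorial * x := by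
  have h1 := Real.pow_div_factorial_le_exp (Real.log x) (Real.log_nonneg hx) K
  rw [Real.exp_log (by linarith), div_le_iff₀ (by positivity)] at h1
  linarith

/-- the frequencies -/
theorem freq_bd {N A0 k a : ℕ} {c E V M τ ξ : ℝ} (hN : 2 ≤ (N : ℝ)) (hc : 0 < c) (hE : 0 ≤ E)
    (hV0 : 0 ≤ V) (hV : V ≤ E * (N : ℝ) ^ a) (hM : M = c * (2 * Real.pi) * (1 + E) ^ 2)
    (hk : M ≤ k) (hτ : |τ| ≤ (N : ℝ) ^ A0)
    (hξ : |ξ| ≤ 2 * Real.pi * ((1 + V) ^ 2 * N)) :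
    |τ + c * ξ| ≤ (N : ℝ) ^ (A0 + k + 2 * a + 2) := by
  have hN1 : (1 : ℝ) ≤ N := by linarith
  have hπ := Real.pi_pos
  have h1 : (1 : ℝ) ≤ (N : ℝ) ^ a := one_le_pow₀ hN1
  have h2 : 1 + V ≤ (1 + E) * (N : ℝ) ^ a := by nlinarith
  have h3 : (1 + V) ^ 2 ≤ (1 + E) ^ 2 * (N : ℝ) ^ (2 * a) := by
    calc (1 + V) ^ 2 ≤ ((1 + E) * (N : ℝ) ^ a) ^ 2 := pow_le_pow_left₀ (by linarith) h2 2
      _ = _ := by rw [mul_pow, ← pow_mul, mul_comm a 2]
  have hM0 : 0 ≤ M := by rw [hM]; positivity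
  have hk2 : M ≤ (N : ℝ) ^ k := by
    calc M ≤ k := hk
      _ ≤ (2 : ℝ) ^ k := by exact_mod_cast (Nat.lt_two_pow_self).le
      _ ≤ (N : ℝ) ^ k := pow_le_pow_left₀ (by norm_num) hN k
  have h4 : c * |ξ| ≤ (N : ℝ) ^ (k + 2 * a + 1) := by
    calc c * |ξ| ≤ c * (2 * Real.pi * ((1 + V) ^ 2 * N)) := mul_le_mul_of_nonneg_left hξ hc.le
      _ ≤ c * (2 * Real.pi * ((1 + E) ^ 2 * (N : ℝ) ^ (2 * a) * N)) := by
          apply mul_le_mul_of_nonneg_left _ hc.le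
          apply mul_le_mul_of_nonneg_left _ (by positivity)
          exact mul_le_mul_of_nonneg_right h3 (by positivity)
      _ = M * ((N : ℝ) ^ (2 * a) * N) := by rw [hM]; ring
      _ ≤ (N : ℝ) ^ k * ((N : ℝ) ^ (2 * a) * N) := mul_le_mul_of_nonneg_right hk2 (by positivity)
      _ = _ := by rw [pow_succ, pow_add]; ring
  have h5 : |τ + c * ξ| ≤ |τ| + c * |ξ| := by
    calc |τ + c * ξ| ≤ |τ| + |c * ξ| := abs_add_le _ _
      _ = _ := by rw [abs_mul, abs_of_pos hc]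
  have h6 : (N : ℝ) ^ A0 ≤ (N : ℝ) ^ (A0 + k + 2 * a + 1) := pow_le_pow_right₀ hN1 (by omega)
  have h7 : (N : ℝ) ^ (k + 2 * a + 1) ≤ (N : ℝ) ^ (A0 + k + 2 * a + 1) :=
    pow_le_pow_right₀ hN1 (by omega)
  have h8 : (N : ℝ) ^ (A0 + k + 2 * a + 2) = N * (N : ℝ) ^ (A0 + k + 2 * a + 1) := by
    rw [pow_succ]
    ring
  have h9 : 0 ≤ (N : ℝ) ^ (A0 + k + 2 * a + 1) := by positivity
  rw [h8]
  nlinarith

theorem step (h1 : S_PLANCH) (h2 : S_WIN) : S_STEP := by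
  intro Ω _ m _ g hgm hg1 hneg A hA1 hAm hAv b c hc A0 K0
  obtain ⟨C1, D, hC1, hD, hW⟩ := h2 A b hA1 hAm hAv
  have hπ := Real.pi_pos
  obtain ⟨a, ha⟩ : ∃ a : ℕ, D * c ≤ a := ⟨⌈D * c⌉₊, Nat.le_ceil _⟩
  obtain ⟨E, hE⟩ : ∃ E : ℝ, E = C1 * Real.exp D := ⟨_, rfl⟩
  have hE0 : 0 ≤ E := by rw [hE]; positivity
  obtain ⟨M, hM⟩ : ∃ M : ℝ, M = c * (2 * Real.pi) * (1 + E) ^ 2 := ⟨_, rfl⟩
  obtain ⟨k, hk⟩ : ∃ k : ℕ, M ≤ k := ⟨⌈M⌉₊, Nat.le_ceil _⟩
  obtain ⟨C2, hC2, hN2⟩ := hneg (A0 + k + 2 * a + 2) (K0 + 1)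
  have hmu : 0 ≤ m.real Set.univ := measureReal_nonneg
  refine ⟨(c + 2) * C2 + m.real Set.univ * (K0.factorial : ℝ), by positivity, ?_⟩
  intro N τ hN hτ
  have hNr : (2 : ℝ) ≤ N := by exact_mod_cast hN
  have hN0 : (0 : ℝ) < N := by linarith
  have hlog : 1 / 2 ≤ Real.log N := by
    have h3 : Real.log 2 ≤ Real.log N := Real.log_le_log (by norm_num) hNr
    have h4 := Real.log_two_gt_d9
    linarith
  have hlog0 : 0 < Real.log N := by linarith
  obtain ⟨L, hL⟩ : ∃ L : ℝ, L = c * Real.log N + 1 := ⟨_, rfl⟩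
  have hL0 : 0 ≤ L := by rw [hL]; positivity
  obtain ⟨V, hV⟩ : ∃ V : ℝ, V = C1 * Real.exp (D * L) := ⟨_, rfl⟩
  have hV0 : 0 ≤ V := by rw [hV]; positivity
  have hVN : V ≤ E * (N : ℝ) ^ a := by
    have e1 : Real.exp (D * L) = Real.exp D * (N : ℝ) ^ (D * c) := by
      rw [Real.rpow_def_of_pos hN0, ← Real.exp_add, hL]
      congr 1
      ring
    have e2 : (N : ℝ) ^ (D * c) ≤ (N : ℝ) ^ a := by
      rw [← Real.rpow_natCast]
      exact Real.rpow_le_rpow_of_exponent_le (by linarith) ha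
    rw [hV, e1, hE, ← mul_assoc]
    exact mul_le_mul_of_nonneg_left e2 (by positivity)
  have hT1 : 1 ≤ (1 + V) ^ 2 * (N : ℝ) := by nlinarith [sq_nonneg V]
  have hS0 : 0 ≤ C2 * (N : ℝ) ^ 2 / Real.log N ^ (K0 + 1) := by positivity
  -- the coefficients
  have hdm : ∀ n, Measurable fun ω => g ω n * er τ (Real.log n) := fun n =>
    (hgm n).mul_const _
  have hd1 : ∀ ω n, ‖g ω n * er τ (Real.log n)‖ ≤ 1 := fun ω n => by
    rw [norm_mul, er_norm, mul_one]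
    exact hg1 ω n
  have hB1 : ∀ y, ‖Bw A b L y‖ ≤ 1 := fun y => by
    unfold Bw
    split_ifs
    · exact hA1 _
    · simp
  have hBs : ∀ y, y ∉ Set.Icc 0 L → Bw A b L y = 0 := fun y hy => by
    unfold Bw
    rw [if_neg hy]
  have hBv : ∀ s, 0 ≤ s → s ≤ 1 → ∫ y, ‖Bw A b L (y + s) - Bw A b L y‖ ≤ V * s :=
    fun s hs hs1 => by
      rw [hV]
      exact hW L s hL0 hs hs1
  have hD' : ∀ ξ : ℝ, |ξ| ≤ 2 * Real.pi * ((1 + V) ^ 2 * N) →
      ∫⁻ ω, ‖Dn (fun n => g ω n * er τ (Real.log n)) c N ξ‖ₑ ^ 2 ∂m ≤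
        ENNReal.ofReal (C2 * (N : ℝ) ^ 2 / Real.log N ^ (K0 + 1)) := by
    intro ξ hξ
    have h3 := hN2 N (τ + c * ξ) hN (freq_bd hNr hc hE0 hV0 hVN hM hk hτ hξ)
    refine le_trans (le_of_eq ?_) h3
    refine lintegral_congr fun ω => ?_
    congr 2
    unfold Dn
    refine Finset.sum_congr rfl fun n _ => ?_
    rw [mul_assoc, er_mul]
  have hmain := h1 Ω m (fun ω n => g ω n * er τ (Real.log n)) hdm hd1 (Bw A b L)
    (Bw_meas hAm b L) hB1 L V ((1 + V) ^ 2 * N) (C2 * (N : ℝ) ^ 2 / Real.log N ^ (K0 + 1)) c hL0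
    hBs hBv hT1 hS0 N hD'
  -- the integral over the product
  have hprod : ∫⁻ p, ‖∑ n ∈ Finset.Icc 1 N, g p.1 n * A (Real.exp (b + p.2) * (n : ℝ) ^ c) *
      er τ (Real.log n)‖ₑ ^ 2 ∂(m.prod (volume.restrict (Set.Icc (0 : ℝ) 1))) ≤
      ∫⁻ ω, (∫⁻ u, ‖Gn (fun n => g ω n * er τ (Real.log n)) (Bw A b L) c N u‖ₑ ^ 2) ∂m := by
    refine (lintegral_prod_le _).trans (lintegral_mono fun ω => ?_)
    refine le_trans ?_ (setLIntegral_le_lintegral (Set.Icc (0 : ℝ) 1) _)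
    refine setLIntegral_mono' measurableSet_Icc fun u hu => le_of_eq ?_
    congr 2
    unfold Gn
    refine Finset.sum_congr rfl fun n hn => ?_
    rw [Finset.mem_Icc] at hn
    have hn1 : (1 : ℝ) ≤ n := by exact_mod_cast hn.1
    have hn2 : (n : ℝ) ≤ N := by exact_mod_cast hn.2
    have hn0 : (0 : ℝ) < n := by linarith
    have hl0 : 0 ≤ Real.log n := Real.log_nonneg hn1
    have hl1 : Real.log n ≤ Real.log N := Real.log_le_log hn0 hn2
    have hmem : u + c * Real.log n ∈ Set.Icc 0 L := by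
      constructor
      · have := hu.1
        positivity
      · rw [hL]
        have := hu.2
        nlinarith
    have hval : Bw A b L (u + c * Real.log n) = A (Real.exp (b + u) * (n : ℝ) ^ c) := by
      unfold Bw
      rw [if_pos hmem, Real.rpow_def_of_pos hn0, ← Real.exp_add]
      congr 2
      ring
    show g ω n * A (Real.exp (b + u) * (n : ℝ) ^ c) * er τ (Real.log n) = _
    rw [hval]
    ring
  refine hprod.trans (hmain.trans (ENNReal.ofReal_le_ofReal ?_))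
  -- numerics
  have hK := log_pow_le K0 (show (1 : ℝ) ≤ N by linarith)
  have hlK : 0 < Real.log N ^ K0 := by positivity
  have hfirst : L * (C2 * (N : ℝ) ^ 2 / Real.log N ^ (K0 + 1)) ≤
      (c + 2) * C2 * N ^ 2 / Real.log N ^ K0 := by
    have h3 : L ≤ (c + 2) * Real.log N := by rw [hL]; nlinarith
    calc L * (C2 * (N : ℝ) ^ 2 / Real.log N ^ (K0 + 1)) ≤
          ((c + 2) * Real.log N) * (C2 * (N : ℝ) ^ 2 / Real.log N ^ (K0 + 1)) :=
          mul_le_mul_of_nonneg_right h3 hS0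
      _ = _ := by
          rw [pow_succ (Real.log N) K0]
          field_simp
  have hsecond : (m.real Set.univ * (N : ℝ) ^ 2) * V ^ 2 / 8 / ((1 + V) ^ 2 * N) ≤
      m.real Set.univ * (K0.factorial : ℝ) * N ^ 2 / Real.log N ^ K0 := by
    have h3 : V ^ 2 / (1 + V) ^ 2 ≤ 1 := by
      rw [div_le_one (by positivity)]
      nlinarith
    have h4 : (m.real Set.univ * (N : ℝ) ^ 2) * V ^ 2 / 8 / ((1 + V) ^ 2 * N) =
        m.real Set.univ * N / 8 * (V ^ 2 / (1 + V) ^ 2) := by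
      have : (1 + V) ≠ 0 := by positivity
      field_simp
    rw [h4]
    have h5 : 0 ≤ m.real Set.univ * N / 8 := by positivity
    have h6 : m.real Set.univ * N / 8 * (V ^ 2 / (1 + V) ^ 2) ≤ m.real Set.univ * N := by
      calc _ ≤ m.real Set.univ * N / 8 * 1 := mul_le_mul_of_nonneg_left h3 h5
        _ ≤ _ := by nlinarith [mul_nonneg hmu hN0.le]
    refine h6.trans ?_
    rw [le_div_iff₀ hlK]
    have h7 : 0 ≤ m.real Set.univ * N := by positivity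
    calc m.real Set.univ * N * Real.log N ^ K0 ≤ m.real Set.univ * N * (K0.factorial * N) :=
          mul_le_mul_of_nonneg_left hK h7
      _ = _ := by ring
  calc _ ≤ (c + 2) * C2 * N ^ 2 / Real.log N ^ K0 +
        m.real Set.univ * (K0.factorial : ℝ) * N ^ 2 / Real.log N ^ K0 :=
        add_le_add hfirst hsecond
    _ = _ := by ring

end Pool.Agent.Y220.VK
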